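import Mathlib
import Pool.Agent.MP_56119d_al.Main

namespace Pool.Agent.Results.MP_56119d_al.SuperExp

open Pool.Agent.MP_56119d_al

/-- For every sequence `w` that is not eventually constant and every finite symmetric generating
set `S` of the Grigorchuk group `G_w`, the Folner function is not bounded by `C * exp (C * n)`. -/
theorem result (w : ℕ → Fin 3) (hw : ¬ ∃ N, ∀ n, N ≤ n → w n = w N)
    (S : Finset (grigorchuk w)) (_hsymm : ∀ s ∈ S, s⁻¹ ∈ S)
    (hgen : Subgroup.closure (S : Set (grigorchuk w)) = ⊤) :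
    ¬ ∃ C : ℝ, 0 < C ∧ ∀ n : ℕ, 1 ≤ n →
      (folner S n : ENNReal) ≤ ENNReal.ofReal (C * Real.exp (C * n)) := by
  rintro ⟨C, hC, h⟩
  obtain ⟨n, hn, hF⟩ := folner_large w hw S hgen C hC
  set X : ℝ := C * Real.exp (C * n) with hX
  have hX0 : 0 ≤ X := by positivity
  have h1 : ((⌊X⌋₊ + 1 : ℕ) : ℕ∞) ≤ folner S n := by
    refine le_iInf₂ fun F hmem => ?_
    have := hF F hmem.1 hmem.2
    exact_mod_cast Nat.succ_le_of_lt ((Nat.floor_lt hX0).2 this)
  have h2 : (((⌊X⌋₊ + 1 : ℕ) : ℕ∞) : ENNReal) ≤ ENNReal.ofReal X :=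
    (ENat.toENNReal_le.2 h1).trans (h n hn)
  rw [ENat.toENNReal_coe, ← ENNReal.ofReal_natCast, ENNReal.ofReal_le_ofReal_iff hX0] at h2
  push_cast at h2
  linarith [Nat.lt_floor_add_one X]

end Pool.Agent.Results.MP_56119d_al.SuperExp
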